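import Mathlib

set_option autoImplicit false
open Complex Filter Topology Set Metric

namespace Pool.Agent.H.MP_c3b115_an

theorem exists_E : ∃ (E : ℂ → ℂ) (M : ℝ), 0 ≤ M ∧ (∀ z, HasDerivAt E (cexp (cexp z)) z) ∧
    ∀ z : ℂ, z.re ≤ 0 → ‖E z - z‖ ≤ M := by
  have hd : Differentiable ℂ (dslope cexp 0) := by
    have := (differentiableOn_dslope (f := cexp) (c := (0 : ℂ)) (s := univ) univ_mem).2
      differentiable_exp.differentiableOn
    exact differentiableOn_univ.1 this
  obtain ⟨P, hP⟩ := hd.isExactOn_univ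
  have hPc : Continuous P := by
    rw [continuous_iff_continuousAt]
    intro z
    exact (hP z (mem_univ _)).continuousAt
  obtain ⟨M, hM⟩ := (isCompact_closedBall (0 : ℂ) 1).exists_bound_of_continuousOn hPc.continuousOn
  refine ⟨fun z => z + P (cexp z), max M 0, le_max_right _ _, fun z => ?_, fun z hz => ?_⟩
  · have h1 := (hP (cexp z) (mem_univ _)).comp z (Complex.hasDerivAt_exp z)
    have h2 := (hasDerivAt_id z).fun_add h1
    refine h2.congr_deriv ?_
    rw [dslope_of_ne _ (Complex.exp_ne_zero z), slope_def_field]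
    have := Complex.exp_ne_zero z
    simp only [sub_zero, Complex.exp_zero]
    field_simp
    ring
  · simp only [add_sub_cancel_left]
    refine (hM _ ?_).trans (le_max_left _ _)
    simp only [mem_closedBall, dist_zero_right, Complex.norm_exp]
    exact Real.exp_le_one_iff.2 hz

theorem exp_ineq (q : ℝ) : Real.exp q * (2 - q) ≤ 3 := by
  have h1 : 2 - q ≤ Real.exp (1 - q) := by
    have := Real.add_one_le_exp (1 - q)
    linarith
  have h2 : Real.exp q * Real.exp (1 - q) = Real.exp 1 := by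
    rw [← Real.exp_add]; congr 1; ring
  have h3 := Real.exp_one_lt_d9
  have h4 := mul_le_mul_of_nonneg_left h1 (Real.exp_pos q).le
  linarith

theorem norm_ee (s y : ℝ) : ‖cexp (cexp (s + y * I))‖ = Real.exp (Real.exp s * Real.cos y) := by
  rw [Complex.norm_exp, Complex.exp_re]
  simp

theorem key (E : ℂ → ℂ) (M : ℝ) (hE : ∀ z, HasDerivAt E (cexp (cexp z)) z)
    (hM : ∀ z : ℂ, z.re ≤ 0 → ‖E z - z‖ ≤ M) (z : ℂ) (hz : 0 ≤ z.re) :
    ‖E z - z.im * I‖ ≤ M + 6 + 2 * (‖cexp (cexp z)‖ * Real.exp (-z.re)) := by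
  set y := z.im with hy
  set x := z.re with hx
  have hzz : z = x + y * I := (Complex.re_add_im z).symm
  let ψ : ℝ → ℂ := fun s => E (s + y * I) - cexp (cexp (s + y * I)) * cexp (-(s + y * I))
  let φ : ℝ → ℝ := fun s => Real.exp (Real.exp s * Real.cos y - s)
  have hφ : ∀ s : ℝ, ‖cexp (cexp (s + y * I)) * cexp (-(s + y * I))‖ = φ s := by
    intro s
    rw [norm_mul, norm_ee, Complex.norm_exp]
    simp only [φ, neg_re, add_re, ofReal_re, mul_re, I_re, mul_zero, ofReal_im, I_im, mul_one,
      sub_self, add_zero]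
    rw [← Real.exp_add]; rfl
  have hψ : ∀ s : ℝ, HasDerivAt ψ (cexp (cexp (s + y * I)) * cexp (-(s + y * I))) s := by
    intro s
    have h0 : HasDerivAt (fun w : ℂ => E w - cexp (cexp w) * cexp (-w))
        (cexp (cexp (s + y * I)) * cexp (-(s + y * I))) (s + y * I) := by
      have h1 := ((Complex.hasDerivAt_exp (s + y * I)).cexp).fun_mul
        ((hasDerivAt_neg' ((s : ℂ) + y * I)).cexp)
      have h2 := (hE (s + y * I)).fun_sub h1
      refine h2.congr_deriv ?_
      have : cexp (s + y * I) * cexp (-(s + y * I)) = 1 := by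
        rw [← Complex.exp_add]; simp
      linear_combination (-cexp (cexp (s + y * I))) * this
    have h3 : HasDerivAt (fun w : ℂ => w + y * I) 1 (s : ℂ) := (hasDerivAt_id _).add_const _
    have h4 := (h0.comp (s : ℂ) h3).comp_ofReal
    exact h4.congr_deriv (mul_one _)
  let B : ℝ → ℝ := fun s => φ s - 3 * Real.exp (-s) - φ 0 + 3
  have hB : ∀ s : ℝ, HasDerivAt B
      (φ s * (Real.exp s * Real.cos y - 1) + 3 * Real.exp (-s)) s := by
    intro s
    have h1 : HasDerivAt φ (φ s * (Real.exp s * Real.cos y - 1)) s :=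
      (((Real.hasDerivAt_exp s).mul_const _).sub (hasDerivAt_id s)).exp
    have h2 : HasDerivAt (fun s : ℝ => 3 * Real.exp (-s)) (3 * (Real.exp (-s) * (-1))) s :=
      ((hasDerivAt_neg' s).exp).const_mul 3
    have h3 := ((h1.fun_sub h2).sub_const (φ 0)).add_const 3
    refine h3.congr_deriv ?_
    ring
  have hmain : ‖ψ x - ψ 0‖ ≤ B x := by
    have := image_norm_le_of_norm_deriv_right_le_deriv_boundary (f := fun s => ψ s - ψ 0)
      (f' := fun s => cexp (cexp (s + y * I)) * cexp (-(s + y * I))) (a := 0) (b := x)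
      (fun s _ => ((hψ s).sub_const _).continuousAt.continuousWithinAt)
      (fun s _ => ((hψ s).sub_const _).hasDerivWithinAt) (B := B)
      (B' := fun s => φ s * (Real.exp s * Real.cos y - 1) + 3 * Real.exp (-s))
      (by simp [B]) hB (fun s _ => by
        rw [hφ]
        have h1 := exp_ineq (Real.exp s * Real.cos y)
        have h2 : φ s = Real.exp (Real.exp s * Real.cos y) * Real.exp (-s) := by
          rw [← Real.exp_add]; rfl
        have h3 := mul_le_mul_of_nonneg_right h1 (Real.exp_pos (-s)).le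
        rw [h2]
        nlinarith)
    exact this ⟨hz, le_rfl⟩
  have hφ0 : φ 0 ≤ 3 := by
    have h1 : Real.exp 0 * Real.cos y - 0 ≤ 1 := by simpa using Real.cos_le_one y
    have := Real.exp_le_exp.2 h1
    have h3 := Real.exp_one_lt_d9
    simp only [φ]
    linarith
  have hφx : φ x = ‖cexp (cexp z)‖ * Real.exp (-x) := by
    rw [← hφ, norm_mul, ← hzz, Complex.norm_exp (-z)]
    simp [hx]
  have h0 : ‖E (((0 : ℝ) : ℂ) + y * I) - y * I‖ ≤ M := by
    have := hM (((0 : ℝ) : ℂ) + y * I) (by simp)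
    simpa using this
  have hid : E z - y * I = (ψ x - ψ 0) + cexp (cexp (x + y * I)) * cexp (-(x + y * I))
      - cexp (cexp (((0 : ℝ) : ℂ) + y * I)) * cexp (-(((0 : ℝ) : ℂ) + y * I))
      + (E (((0 : ℝ) : ℂ) + y * I) - y * I) := by
    simp only [ψ]
    rw [← hzz]
    ring
  rw [hid]
  have e1 := hφ x
  have e2 := hφ 0
  have e3 := Real.exp_pos (-x)
  have e4 : 0 < φ 0 := Real.exp_pos _
  refine (norm_add_le _ _).trans ?_
  refine (add_le_add (norm_sub_le _ _) h0).trans ?_
  refine (add_le_add_left (add_le_add_left (norm_add_le _ _) _) _).trans ?_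
  rw [e1, e2, ← hφx]
  simp only [B] at hmain
  linarith

end Pool.Agent.H.MP_c3b115_an
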