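import Pool.Agent.H.MP_c3b115_an.A

set_option autoImplicit false
open Complex Filter Topology Set Metric

namespace Pool.Agent.H.MP_c3b115_an

structure Good (E : ℂ → ℂ) (m : ℝ) : Prop where
  hE : ∀ z, HasDerivAt E (cexp (cexp z)) z
  hm : 60 ≤ m
  neg : ∀ z : ℂ, z.re ≤ 0 → ‖E z - z‖ ≤ m
  pos : ∀ z : ℂ, 0 ≤ z.re → ‖E z - z.im * I‖ ≤ m + 2 * (‖cexp (cexp z)‖ * Real.exp (-z.re))

theorem exists_good : ∃ E m, Good E m := by
  obtain ⟨E, M, h0, hE, hM⟩ := exists_E
  refine ⟨E, M + 60, hE, by linarith, fun z hz => by linarith [hM z hz], fun z hz => ?_⟩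
  linarith [key E M hE hM z hz]

theorem count (h : ℂ → ℂ) (hh : Differentiable ℂ h) (hd : ∀ z, deriv h z ≠ 0) (c : ℂ) (M : ℝ)
    (hM : 1 ≤ M) (hc : h c ≠ 0) (hb : ∀ z ∈ sphere c 8, ‖h z‖ ≤ M) (S : Finset ℂ)
    (hS : ∀ t ∈ S, h t = 0 ∧ t ∈ closedBall c 4) :
    (S.card : ℝ) ≤ Real.log (M / ‖h c‖) / Real.log 2 := by
  have han : ∀ U, AnalyticOnNhd ℂ h U := fun U z _ => hh.analyticAt z
  have h8 : |(8 : ℝ)| = 8 := by norm_num
  have h4 : |(4 : ℝ)| = 4 := by norm_num
  have := AnalyticOnNhd.sum_divisor_le (c := c) (r := 4) (R := 8) (M := M) (f := h)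
    (by norm_num) (by norm_num) hM (han _) hc (by rw [h8]; exact hb)
  rw [show (8 : ℝ) / 4 = 2 by norm_num, h4] at this
  refine le_trans ?_ this
  set D := MeromorphicOn.divisor h (closedBall c 4) with hD
  have hfin : (Function.support D).Finite := D.finiteSupport (isCompact_closedBall c 4)
  have hnn : 0 ≤ D := MeromorphicOn.AnalyticOnNhd.divisor_nonneg (han _)
  have h1 : ∀ t ∈ S, D t = 1 := by
    intro t ht
    rw [hD, MeromorphicOn.AnalyticOnNhd.divisor_apply (han _) (hS t ht).2,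
      (hh.analyticAt t).analyticOrderAt_eq_one_of_zero_deriv_ne_zero (hS t ht).1 (hd t)]
    rfl
  have h2 : ((S.card : ℕ) : ℤ) ≤ ∑ᶠ u, D u := by
    rw [finsum_eq_sum_of_support_subset (s := S ∪ hfin.toFinset) _ (by
      intro u hu
      simp only [Finset.coe_union, Finite.coe_toFinset, mem_union]
      exact Or.inr hu)]
    calc ((S.card : ℕ) : ℤ) = ∑ u ∈ S, D u := by
          rw [Finset.sum_congr rfl h1]; simp
      _ ≤ _ := Finset.sum_le_sum_of_subset_of_nonneg Finset.subset_union_left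
          (fun u _ _ => hnn u)
  exact_mod_cast h2

theorem norm_ee' (z : ℂ) : ‖cexp (cexp z)‖ = Real.exp (Real.exp z.re * Real.cos z.im) := by
  rw [Complex.norm_exp, Complex.exp_re]

theorem norm_ee_le (z : ℂ) : ‖cexp (cexp z)‖ ≤ Real.exp (Real.exp z.re) := by
  rw [norm_ee']
  apply Real.exp_le_exp.2
  have := Real.cos_le_one z.im
  have := Real.exp_pos z.re
  nlinarith

variable {E : ℂ → ℂ} {m : ℝ} {b : ℂ}

theorem Good.diff (G : Good E m) : Differentiable ℂ E := fun z => (G.hE z).differentiableAt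

theorem Good.zero_pos (G : Good E m) (hb : 2 * m + 2 ≤ b.re) {t : ℂ} (ht : E t = b) :
    0 < t.re := by
  by_contra hc
  push Not at hc
  have h1 := G.neg t hc
  rw [ht] at h1
  have h2 := Complex.re_le_norm (b - t)
  have := G.hm
  simp only [sub_re] at h2
  linarith

theorem Good.zero_one (G : Good E m) (hb : 2 * m + 2 ≤ b.re) {t : ℂ} (ht : E t = b) :
    1 ≤ t.re := by
  by_contra hc
  push Not at hc
  have h0 := G.zero_pos hb ht
  have h1 := G.pos t h0.le
  rw [ht] at h1
  have h2 := Complex.re_le_norm (b - t.im * I)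
  have h3 := norm_ee_le t
  have h4 : Real.exp t.re ≤ 3 := by
    have := Real.exp_le_exp.2 hc.le
    have := Real.exp_one_lt_d9
    linarith
  have h5 : Real.exp (Real.exp t.re) ≤ 27 := by
    have h6 := Real.exp_le_exp.2 h4
    have h7 : Real.exp 3 = Real.exp 1 ^ 3 := by
      rw [← Real.exp_nat_mul]; norm_num
    have h8 := Real.exp_one_lt_d9
    have h9 : Real.exp 1 ^ 3 ≤ 3 ^ 3 := pow_le_pow_left₀ (Real.exp_pos 1).le (by linarith) 3
    linarith
  have h6 : Real.exp (-t.re) ≤ 1 := Real.exp_le_one_iff.2 (by linarith)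
  have h7 : ‖cexp (cexp t)‖ * Real.exp (-t.re) ≤ 27 * 1 :=
    mul_le_mul (h3.trans h5) h6 (Real.exp_pos _).le (by norm_num)
  have := G.hm
  simp only [sub_re, mul_re, ofReal_re, I_re, mul_zero, ofReal_im, I_im, mul_one, sub_self,
    sub_zero] at h2
  linarith

theorem Good.zero_big (G : Good E m) (hb : 2 * m + 2 ≤ b.re) (hb' : |b.im| ≤ 1) {t : ℂ}
    (ht : E t = b) : 1 + |t.im| ≤ 4 * (‖cexp (cexp t)‖ * Real.exp (-t.re)) := by
  have h0 := G.zero_pos hb ht
  have h1 := G.pos t h0.le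
  rw [ht] at h1
  have h2 := Complex.re_le_norm (b - t.im * I)
  have h3 := Complex.abs_im_le_norm (b - t.im * I)
  simp only [sub_re, mul_re, ofReal_re, I_re, mul_zero, ofReal_im, I_im, mul_one, sub_self,
    sub_zero, sub_im, mul_im, add_zero] at h2 h3
  have h4 : |t.im| ≤ |b.im| + |b.im - t.im| := by
    have := abs_sub (b.im) (b.im - t.im)
    simpa using this
  linarith

theorem Good.big (G : Good E m) (hb : 2 * m + 2 ≤ b.re) {z : ℂ} (hz : 0 ≤ z.re)
    (hc : Real.cos z.im ≤ 0) : 1 ≤ ‖E z - b‖ := by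
  have h1 := G.pos z hz
  have h2 := Complex.re_le_norm (b - z.im * I)
  simp only [sub_re, mul_re, ofReal_re, I_re, mul_zero, ofReal_im, I_im, mul_one, sub_self,
    sub_zero] at h2
  have h3 : ‖cexp (cexp z)‖ ≤ 1 := by
    rw [norm_ee']
    apply Real.exp_le_one_iff.2
    have := Real.exp_pos z.re
    nlinarith
  have h6 : Real.exp (-z.re) ≤ 1 := Real.exp_le_one_iff.2 (by linarith)
  have h7 : ‖cexp (cexp z)‖ * Real.exp (-z.re) ≤ 1 * 1 :=
    mul_le_mul h3 h6 (Real.exp_pos _).le (by norm_num)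
  have h8 : ‖b - z.im * I‖ ≤ ‖E z - z.im * I‖ + ‖E z - b‖ := by
    have := norm_sub_le (E z - z.im * I) (E z - b)
    rwa [show E z - z.im * I - (E z - b) = b - z.im * I by ring] at this
  have := G.hm
  linarith

theorem Good.box (G : Good E m) (hb : 2 * m + 2 ≤ b.re) (X : ℕ) (k : ℤ) (S : Finset ℂ)
    (hS : ∀ t ∈ S, E t = b ∧ ⌊t.re⌋₊ = X ∧ ⌊t.im / (2 * Real.pi)⌋ = k) :
    (S.card : ℝ) ≤ 2 * (8 + Real.exp 8) * Real.exp X := by
  set c : ℂ := (X : ℝ) + ((2 * k + 1) * Real.pi : ℝ) * I with hc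
  have hcre : c.re = X := by simp [hc]
  have hcim : c.im = (2 * k + 1) * Real.pi := by simp [hc]
  have h1 : 1 ≤ ‖E c - b‖ := by
    apply G.big hb (by rw [hcre]; positivity)
    rw [hcim, show (2 * (k : ℝ) + 1) * Real.pi = k * (2 * Real.pi) + Real.pi by ring,
      Real.cos_int_mul_two_pi_add_pi]
    norm_num
  set T := Real.exp (Real.exp (X + 8)) with hT
  have hT1 : 1 ≤ T := Real.one_le_exp (Real.exp_pos _).le
  have hbd : ∀ z ∈ sphere c 8, ‖E z - b‖ ≤ 9 * T * ‖E c - b‖ := by
    intro z hz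
    have := (convex_closedBall c 8).norm_image_sub_le_of_norm_hasDerivWithin_le (f := E)
      (f' := fun z => cexp (cexp z)) (C := T) (fun w _ => (G.hE w).hasDerivWithinAt)
      (fun w hw => by
        refine (norm_ee_le w).trans (Real.exp_le_exp.2 (Real.exp_le_exp.2 ?_))
        have := Complex.re_le_norm (w - c)
        rw [mem_closedBall, dist_eq_norm] at hw
        simp only [sub_re, hcre] at this
        linarith) (mem_closedBall_self (by norm_num)) (sphere_subset_closedBall hz)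
    rw [mem_sphere, dist_eq_norm] at hz
    rw [hz] at this
    have h2 : ‖E z - b‖ ≤ ‖E z - E c‖ + ‖E c - b‖ := by
      have := norm_add_le (E z - E c) (E c - b)
      rwa [show E z - E c + (E c - b) = E z - b by ring] at this
    nlinarith
  have hcnt := count (fun z => E z - b) (G.diff.sub_const b)
    (fun z => by rw [((G.hE z).sub_const b).deriv]; exact Complex.exp_ne_zero _) c
    (9 * T * ‖E c - b‖) (by nlinarith) (by
      intro h0
      simp only [h0, norm_zero] at h1
      linarith) hbd S (by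
      intro t ht
      obtain ⟨e1, e2, e3⟩ := hS t ht
      refine ⟨by simp [e1], ?_⟩
      have p0 := G.zero_pos hb e1
      have p1 := Nat.floor_le p0.le
      have p2 := Nat.lt_floor_add_one t.re
      have p3 := Int.floor_le (t.im / (2 * Real.pi))
      have p4 := Int.lt_floor_add_one (t.im / (2 * Real.pi))
      rw [e2] at p1 p2
      rw [e3] at p3 p4
      have hpi := Real.pi_pos
      rw [le_div_iff₀ (by positivity)] at p3
      rw [div_lt_iff₀ (by positivity)] at p4
      rw [mem_closedBall, dist_eq_norm]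
      have q1 : |(t - c).re| ≤ 1 := by
        rw [sub_re, hcre, abs_le]; constructor <;> linarith
      have q2 : |(t - c).im| ≤ Real.pi := by
        rw [sub_im, hcim, abs_le]; constructor <;> nlinarith
      have q3 := Real.pi_lt_d2
      have q4 : ‖t - c‖ ^ 2 ≤ 4 ^ 2 := by
        rw [Complex.sq_norm, Complex.normSq_apply]
        have := abs_mul_abs_self (t - c).re
        have := abs_mul_abs_self (t - c).im
        have := abs_nonneg (t - c).re
        have := abs_nonneg (t - c).im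
        nlinarith
      exact (pow_le_pow_iff_left₀ (norm_nonneg _) (by norm_num) two_ne_zero).1 q4)
  have hne : ‖E c - b‖ ≠ 0 := by linarith
  rw [mul_div_assoc, div_self hne, mul_one, Real.log_mul (by norm_num) (by linarith), hT,
    Real.log_exp] at hcnt
  have l2 := Real.log_two_gt_d9
  have l9 : Real.log 9 ≤ 8 := by
    have := Real.log_le_sub_one_of_pos (show (0 : ℝ) < 9 by norm_num)
    linarith
  have eX : 1 ≤ Real.exp X := Real.one_le_exp (by positivity)
  have e8 := Real.exp_pos 8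
  rw [le_div_iff₀ (by linarith), Real.exp_add] at hcnt
  have hS0 : (0 : ℝ) ≤ S.card := by positivity
  nlinarith

noncomputable def aa (n : ℕ) : ℝ := (((n : ℝ) + 1) * Real.sqrt (n + 1))⁻¹

theorem aa_pos (n : ℕ) : 0 < aa n := by unfold aa; positivity

theorem summable_aa : Summable aa := by
  have h := (Real.summable_one_div_nat_add_rpow 1 (3 / 2)).2 (by norm_num)
  refine h.congr fun n => ?_
  unfold aa
  rw [abs_of_pos (by positivity), one_div, Real.sqrt_eq_rpow,
    show (3 / 2 : ℝ) = 1 + 1 / 2 by norm_num, Real.rpow_add (by positivity), Real.rpow_one]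

theorem summable_ww : Summable (fun p : ℕ × ℤ => aa p.1 * aa p.2.natAbs) := by
  have h2 : Summable (fun k : ℤ => aa k.natAbs) := by
    apply Summable.of_nat_of_neg
    · simpa using summable_aa
    · simpa using summable_aa
  exact summable_aa.mul_of_nonneg h2 (fun n => (aa_pos n).le) (fun n => (aa_pos _).le)

theorem Good.term (G : Good E m) (hb : 2 * m + 2 ≤ b.re) (hb' : |b.im| ≤ 1) {t : ℂ}
    (ht : E t = b) : ‖(cexp (cexp t))⁻¹‖ / ‖t‖ ^ 2 ≤
      48 * Real.exp (-(⌊t.re⌋₊ : ℕ)) * (aa ⌊t.re⌋₊ * aa ⌊t.im / (2 * Real.pi)⌋.natAbs) := by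
  have h1 := G.zero_one hb ht
  have h2 := G.zero_big hb hb' ht
  set X := ⌊t.re⌋₊
  set k := ⌊t.im / (2 * Real.pi)⌋
  have p1 : (X : ℝ) ≤ t.re := Nat.floor_le (by linarith)
  have hk : ((k.natAbs : ℕ) : ℝ) ≤ |t.im| + 1 := by
    have p3 : (k : ℝ) ≤ t.im / (2 * Real.pi) := Int.floor_le _
    have p4 : t.im / (2 * Real.pi) < k + 1 := Int.lt_floor_add_one _
    have hpi := Real.pi_gt_three
    have q : |t.im / (2 * Real.pi)| ≤ |t.im| := by
      rw [abs_div, abs_of_pos (show 0 < 2 * Real.pi by positivity)]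
      exact div_le_self (abs_nonneg _) (by linarith)
    rw [Nat.cast_natAbs, Int.cast_abs, abs_le]
    have := abs_le.1 q
    constructor <;> linarith [this.1, this.2]
  set A : ℝ := X + 1 with hA
  set B : ℝ := (k.natAbs : ℕ) + 1 with hB
  have hA0 : 0 < A := by positivity
  have hB0 : 0 < B := by positivity
  have hy := abs_nonneg t.im
  have hAB : Real.sqrt A * Real.sqrt B ≤ 2 * t.re + |t.im| := by
    have := Real.sq_sqrt hA0.le
    have := Real.sq_sqrt hB0.le
    nlinarith [sq_nonneg (Real.sqrt A - Real.sqrt B)]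
  have hn : ‖t‖ ^ 2 = t.re ^ 2 + |t.im| ^ 2 := by
    rw [Complex.sq_norm, Complex.normSq_apply, sq_abs]; ring
  have hmain : A * Real.sqrt A * (B * Real.sqrt B) ≤ 12 * ((1 + |t.im|) * ‖t‖ ^ 2) := by
    have q1 : A * B ≤ (2 * t.re) * (2 * (1 + |t.im|)) :=
      mul_le_mul (by linarith) (by linarith) hB0.le (by linarith)
    have q2 : A * B * (Real.sqrt A * Real.sqrt B) ≤
        (2 * t.re) * (2 * (1 + |t.im|)) * (2 * t.re + |t.im|) :=
      mul_le_mul q1 hAB (by positivity) (by nlinarith)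
    have q3 : t.re * (2 * t.re + |t.im|) ≤ 3 * ‖t‖ ^ 2 := by
      rw [hn]; nlinarith [sq_nonneg (t.re - |t.im|)]
    have q4 := mul_le_mul_of_nonneg_left q3 (show 0 ≤ 4 * (1 + |t.im|) by linarith)
    nlinarith
  have hN : 0 < ‖cexp (cexp t)‖ := norm_pos_iff.2 (Complex.exp_ne_zero _)
  have ht0 : 0 < ‖t‖ := by
    have := Complex.re_le_norm t
    linarith
  have hex : Real.exp (-t.re) ≤ Real.exp (-(X : ℝ)) := Real.exp_le_exp.2 (by linarith)
  have hs : 0 < A * Real.sqrt A * (B * Real.sqrt B) := by positivity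
  have e : aa X * aa k.natAbs = (A * Real.sqrt A * (B * Real.sqrt B))⁻¹ := by
    unfold aa
    rw [mul_inv (A * Real.sqrt A)]
  rw [e, norm_inv, ← div_eq_mul_inv, div_le_div_iff₀ (by positivity) hs, inv_mul_le_iff₀ hN]
  have q5 : 1 + |t.im| ≤ 4 * (‖cexp (cexp t)‖ * Real.exp (-(X : ℝ))) :=
    h2.trans (by gcongr)
  have q6 := mul_le_mul_of_nonneg_right q5 (sq_nonneg ‖t‖)
  nlinarith

theorem Good.summable (G : Good E m) (hb : 2 * m + 2 ≤ b.re) (hb' : |b.im| ≤ 1) :
    Summable (fun t : {t : ℂ // E t = b} => ‖(cexp (cexp t.1))⁻¹‖ / ‖t.1‖ ^ 2) := by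
  classical
  set K := 2 * (8 + Real.exp 8) * 48 with hK
  have hw := summable_ww.mul_left K
  refine summable_of_sum_le (c := ∑' p : ℕ × ℤ, K * (aa p.1 * aa p.2.natAbs))
    (fun t => by positivity) fun u => ?_
  let g : {t : ℂ // E t = b} → ℕ × ℤ := fun t => (⌊t.1.re⌋₊, ⌊t.1.im / (2 * Real.pi)⌋)
  rw [← Finset.sum_fiberwise_of_maps_to (t := u.image g) (g := g)
    (fun t ht => Finset.mem_image_of_mem g ht)]
  refine le_trans (Finset.sum_le_sum fun p _ => ?_)
    (hw.sum_le_tsum (u.image g) fun p _ => by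
      have := aa_pos p.1
      have := aa_pos p.2.natAbs
      positivity)
  have hc := G.box hb p.1 p.2 ((u.filter (fun t => g t = p)).map (Function.Embedding.subtype _))
    (by
      intro t ht
      simp only [Finset.mem_map, Finset.mem_filter, Function.Embedding.coe_subtype] at ht
      obtain ⟨s, ⟨_, hs⟩, rfl⟩ := ht
      exact ⟨s.2, congrArg Prod.fst hs, congrArg Prod.snd hs⟩)
  rw [Finset.card_map] at hc
  have hle := Finset.sum_le_card_nsmul (u.filter (fun t => g t = p))
    (fun t => ‖(cexp (cexp t.1))⁻¹‖ / ‖t.1‖ ^ 2)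
    (48 * Real.exp (-(p.1 : ℝ)) * (aa p.1 * aa p.2.natAbs)) (by
      intro t ht
      have := G.term hb hb' t.2
      rw [Finset.mem_filter] at ht
      rw [← ht.2]
      exact this)
  refine hle.trans ?_
  rw [nsmul_eq_mul]
  have p1 := aa_pos p.1
  have p2 := aa_pos p.2.natAbs
  refine (mul_le_mul_of_nonneg_right hc (by positivity)).trans (le_of_eq ?_)
  have : Real.exp p.1 * Real.exp (-(p.1 : ℝ)) = 1 := by rw [← Real.exp_add]; simp
  rw [hK]
  linear_combination (2 * (8 + Real.exp 8) * 48 * (aa p.1 * aa p.2.natAbs)) * this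

end Pool.Agent.H.MP_c3b115_an
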