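import Mathlib

set_option autoImplicit false
open Complex Filter Topology Set Metric MeasureTheory
open scoped ENNReal

namespace Pool.Agent.H.MP_c3b115_an

theorem inv_bound (b0 : ℂ) : ∃ C : ℝ≥0∞, C ≠ ∞ ∧ ∀ w : ℂ,
    ∫⁻ b in ball b0 1, ENNReal.ofReal ‖w - b‖⁻¹ ≤ C := by
  have hint : IntegrableOn (fun u : ℂ => ‖u‖⁻¹) (ball 0 1) volume := by
    apply integrableOn_ball_of_norm_le_rpow (C := 1) (α := 1) (by simp) (by simp)
    · refine Eventually.of_forall fun u => ?_
      simp [Real.rpow_neg_one]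
    · exact (measurable_norm.inv).aestronglyMeasurable
  let g : ℂ → ℝ≥0∞ := (ball (0 : ℂ) 1).indicator fun u => ENNReal.ofReal ‖u‖⁻¹
  have hg : ∫⁻ u, g u ≠ ∞ := by
    rw [lintegral_indicator measurableSet_ball]
    exact (hint.lintegral_lt_top).ne
  have hgm : Measurable g := (measurable_norm.inv.ennreal_ofReal).indicator measurableSet_ball
  refine ⟨(∫⁻ u, g u) + volume (ball b0 1), ENNReal.add_ne_top.2 ⟨hg, measure_ball_lt_top.ne⟩,
    fun w => ?_⟩
  calc ∫⁻ b in ball b0 1, ENNReal.ofReal ‖w - b‖⁻¹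
      ≤ ∫⁻ b in ball b0 1, (g (w - b) + 1) := by
        refine lintegral_mono fun b => ?_
        by_cases hb : w - b ∈ ball (0 : ℂ) 1
        · simp only [g, indicator_of_mem hb]
          exact le_self_add
        · simp only [g, indicator_of_notMem hb, zero_add]
          rw [mem_ball_zero_iff, not_lt] at hb
          exact ENNReal.ofReal_le_one.2 (inv_le_one_of_one_le₀ hb)
    _ = (∫⁻ b in ball b0 1, g (w - b)) + volume (ball b0 1) := by
        rw [lintegral_add_right _ measurable_const]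
        simp
    _ ≤ _ := by
        exact add_le_add_left ((setLIntegral_le_lintegral _ _).trans
          (lintegral_sub_left_eq_self (μ := volume) g w).le) _

theorem generic (E : ℂ → ℂ) (hE : Differentiable ℂ E) (b0 : ℂ) : ∃ b ∈ ball b0 1,
    (∀ j : ℕ, ∀ z ∈ sphere (0 : ℂ) (2 ^ j), E z ≠ b) ∧
    Tendsto (fun j : ℕ => (1 / 2 : ℝ) ^ j *
      ∫ θ in (0 : ℝ)..2 * Real.pi, ‖E (circleMap 0 (2 ^ j) θ) - b‖⁻¹) atTop (𝓝 0) := by
  obtain ⟨C, hC, hCb⟩ := inv_bound b0
  let F : ℕ → ℂ → ℝ≥0∞ := fun j b => ENNReal.ofReal ((1 / 2 : ℝ) ^ j) *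
    ∫⁻ θ in Ioc (0 : ℝ) (2 * Real.pi), ENNReal.ofReal ‖E (circleMap 0 (2 ^ j) θ) - b‖⁻¹
  have hm : ∀ j : ℕ, Measurable (Function.uncurry fun (b : ℂ) (θ : ℝ) =>
      ENNReal.ofReal ‖E (circleMap 0 (2 ^ j) θ) - b‖⁻¹) := by
    intro j
    have : Continuous fun p : ℂ × ℝ => ‖E (circleMap 0 (2 ^ j) p.2) - p.1‖ := by
      have := hE.continuous
      fun_prop
    exact this.measurable.inv.ennreal_ofReal
  have hFm : ∀ j, Measurable (F j) := fun j =>
    ((hm j).lintegral_prod_right).const_mul _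
  have hFi : ∀ j, ∫⁻ b in ball b0 1, F j b ≤
      ENNReal.ofReal ((1 / 2 : ℝ) ^ j) * (C * ENNReal.ofReal (2 * Real.pi)) := by
    intro j
    simp only [F]
    rw [lintegral_const_mul _ (hm j).lintegral_prod_right,
      lintegral_lintegral_swap (hm j).aemeasurable]
    gcongr
    refine (lintegral_mono fun θ => hCb _).trans ?_
    simp
  have hsum : ∫⁻ b in ball b0 1, ∑' j, F j b ≠ ∞ := by
    rw [lintegral_tsum fun j => (hFm j).aemeasurable]
    refine ne_top_of_le_ne_top ?_ (ENNReal.tsum_le_tsum hFi)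
    rw [ENNReal.tsum_mul_right]
    refine ENNReal.mul_ne_top ?_ (ENNReal.mul_ne_top hC ENNReal.ofReal_ne_top)
    rw [← ENNReal.ofReal_tsum_of_nonneg (fun j => by positivity) summable_geometric_two]
    exact ENNReal.ofReal_ne_top
  have h1 := ae_lt_top (Measurable.tsum hFm) hsum
  have h2 : ∀ᵐ b : ℂ, ∀ j : ℕ, b ∉ E '' sphere (0 : ℂ) (2 ^ j) := by
    rw [ae_all_iff]
    intro j
    have := addHaar_image_eq_zero_of_differentiableOn_of_addHaar_eq_zero volume
      (f := E) (s := sphere (0 : ℂ) (2 ^ j))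
      (hE.restrictScalars ℝ).differentiableOn (Measure.addHaar_sphere volume _ _)
    exact measure_eq_zero_iff_ae_notMem.1 this
  have h3 := h1.and ((ae_restrict_of_ae h2).and (ae_restrict_mem measurableSet_ball))
  have : (ae (volume.restrict (ball b0 1))).NeBot := by
    rw [ae_neBot, Ne, Measure.restrict_eq_zero]
    exact (measure_ball_pos volume b0 one_pos).ne'
  obtain ⟨b, hb1, hb2, hb3⟩ := h3.exists
  have hne : ∀ j : ℕ, ∀ z ∈ sphere (0 : ℂ) (2 ^ j), E z ≠ b := fun j z hz h =>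
    hb2 j ⟨z, hz, h⟩
  refine ⟨b, hb3, hne, ?_⟩
  have h4 := ENNReal.tendsto_atTop_zero_of_tsum_ne_top hb1.ne
  have h5 := (ENNReal.tendsto_toReal ENNReal.zero_ne_top).comp h4
  refine Tendsto.congr (fun j => ?_) h5
  simp only [Function.comp, F]
  rw [ENNReal.toReal_mul, ENNReal.toReal_ofReal (by positivity),
    intervalIntegral.integral_of_le (by positivity), integral_eq_lintegral_of_nonneg_ae]
  · exact Eventually.of_forall fun θ => by positivity
  · have : Continuous fun θ : ℝ => ‖E (circleMap 0 (2 ^ j) θ) - b‖ := by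
      have := hE.continuous
      fun_prop
    exact this.measurable.inv.aestronglyMeasurable

end Pool.Agent.H.MP_c3b115_an
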