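import Mathlib

set_option autoImplicit false
open Complex Filter Topology Set Metric

namespace Pool.Agent.H.MP_c3b115_an

theorem removable (g : ℂ → ℂ) (U : Set ℂ) (hU : IsOpen U)
    (h : ∀ z ∈ U, ∃ A : ℂ → ℂ, AnalyticAt ℂ A z ∧ g =ᶠ[𝓝[≠] z] A) :
    ∃ G : ℂ → ℂ, DifferentiableOn ℂ G U ∧ ∀ z ∈ U, ContinuousAt g z → G z = g z := by
  choose! A hA hg using h
  refine ⟨fun z => A z z, fun z hz => ?_, fun z hz hc => ?_⟩
  · have h1 : (fun w => A w w) =ᶠ[𝓝 z] A z := by
      have e1 := (hg z hz)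
      rw [EventuallyEq, ← eventually_eventually_nhdsWithin, eventually_nhdsWithin_iff] at e1
      filter_upwards [e1, hU.mem_nhds hz, (hA z hz).eventually_analyticAt] with w hw hwU hwA
      by_cases hwz : w = z
      · rw [hwz]
      · have e2 := hw hwz
        rw [(isOpen_compl_singleton.nhdsWithin_eq hwz)] at e2
        have e3 : A w =ᶠ[𝓝[≠] w] A z :=
          (hg w hwU).symm.trans (mem_nhdsWithin_of_mem_nhds e2)
        exact tendsto_nhds_unique_of_eventuallyEq
          ((hA w hwU).continuousAt.tendsto.mono_left nhdsWithin_le_nhds)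
          (hwA.continuousAt.tendsto.mono_left nhdsWithin_le_nhds) e3
    exact ((hA z hz).differentiableAt.congr_of_eventuallyEq h1).differentiableWithinAt
  · exact tendsto_nhds_unique_of_eventuallyEq
      ((hA z hz).continuousAt.tendsto.mono_left nhdsWithin_le_nhds)
      (hc.tendsto.mono_left nhdsWithin_le_nhds) (hg z hz).symm

theorem circ_zero (ρ : ℝ) (z0 t : ℂ) (hz : z0 ∈ ball (0 : ℂ) ρ) (ht : t ∈ ball (0 : ℂ) ρ)
    (hne : t ≠ z0) : (∮ z in C(0, ρ), ((z - z0) ^ 2)⁻¹ * (z - t)⁻¹) = 0 := by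
  have hρ : 0 < ρ := dist_nonneg.trans_lt hz
  have hs : ∀ w ∈ ball (0 : ℂ) ρ, ∀ z ∈ sphere (0 : ℂ) ρ, z - w ≠ 0 := by
    intro w hw z hz h
    rw [sub_eq_zero] at h
    rw [h] at hz
    exact (ne_of_lt (mem_ball.1 hw)) (mem_sphere.1 hz)
  have hd : t - z0 ≠ 0 := sub_ne_zero.2 hne
  have i1 : ∀ w ∈ ball (0 : ℂ) ρ, ∀ a : ℂ, CircleIntegrable (fun z => a * (z - w)⁻¹) 0 ρ := by
    intro w hw a
    apply ContinuousOn.circleIntegrable hρ.le
    exact continuousOn_const.mul ((continuousOn_id.sub continuousOn_const).inv₀ (hs w hw))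
  have i2 : CircleIntegrable (fun z => (t - z0)⁻¹ * (z - z0) ^ (-2 : ℤ)) 0 ρ := by
    apply ContinuousOn.circleIntegrable hρ.le
    exact continuousOn_const.mul ((continuousOn_id.sub continuousOn_const).zpow₀ _
      fun z hz' => Or.inl (hs z0 hz z hz'))
  rw [circleIntegral.integral_congr hρ.le (g := fun z =>
    ((t - z0) ^ 2)⁻¹ * (z - t)⁻¹ - ((t - z0) ^ 2)⁻¹ * (z - z0)⁻¹
      - (t - z0)⁻¹ * (z - z0) ^ (-2 : ℤ))]
  · have i3 : CircleIntegrable (fun z => ((t - z0) ^ 2)⁻¹ * (z - t)⁻¹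
        - ((t - z0) ^ 2)⁻¹ * (z - z0)⁻¹) 0 ρ := (i1 t ht _).sub (i1 z0 hz _)
    rw [circleIntegral.integral_sub i3 i2,
      circleIntegral.integral_sub (i1 t ht _) (i1 z0 hz _)]
    simp only [circleIntegral.integral_const_mul]
    rw [circleIntegral.integral_sub_inv_of_mem_ball ht,
      circleIntegral.integral_sub_inv_of_mem_ball hz,
      circleIntegral.integral_sub_zpow_of_ne (by decide)]
    ring
  · intro z hz'
    have h1 := hs z0 hz z hz'
    have h2 := hs t ht z hz'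
    simp only [zpow_neg, zpow_ofNat]
    field_simp
    ring

theorem residue (h h' : ℂ → ℂ) (hh : ∀ z, HasDerivAt h (h' z) z) (hd : ∀ z, h' z ≠ 0) (ρ : ℝ)
    (hs : ∀ z ∈ sphere (0 : ℂ) ρ, h z ≠ 0) (z0 : ℂ) (hz : z0 ∈ ball (0 : ℂ) ρ) (h0 : h z0 ≠ 0)
    (S : Finset ℂ) (hS : ∀ t, t ∈ S ↔ h t = 0 ∧ t ∈ ball (0 : ℂ) ρ) :
    (2 * Real.pi * I : ℂ)⁻¹ * (∮ z in C(0, ρ), ((z - z0) ^ 2)⁻¹ * (h z)⁻¹) =
      -(h' z0 / h z0 ^ 2) + ∑ t ∈ S, (h' t)⁻¹ / (z0 - t) ^ 2 := by
  classical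
  have hρ : 0 < ρ := dist_nonneg.trans_lt hz
  have hdiff : Differentiable ℂ h := fun z => (hh z).differentiableAt
  let U : Set ℂ := {z | h z ≠ 0} ∪ ball 0 ρ
  have hU : IsOpen U := (isOpen_ne_fun hdiff.continuous continuous_const).union isOpen_ball
  have hsub : closedBall (0 : ℂ) ρ ⊆ U := by
    intro z hz'
    rcases (mem_closedBall.1 hz').lt_or_eq with h1 | h1
    · exact Or.inr h1
    · exact Or.inl (hs z h1)
  let g : ℂ → ℂ := fun z => (h z)⁻¹ - ∑ t ∈ S, (h' t)⁻¹ * (z - t)⁻¹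
  have hga : ∀ z, h z ≠ 0 → AnalyticAt ℂ g z := by
    intro z hz'
    refine ((hdiff.analyticAt z).fun_inv hz').fun_sub (Finset.analyticAt_fun_sum _ fun t ht => ?_)
    have : z - t ≠ 0 := by
      intro e
      rw [sub_eq_zero] at e
      exact hz' (e ▸ ((hS t).1 ht).1)
    exact analyticAt_const.fun_mul ((analyticAt_id.fun_sub analyticAt_const).fun_inv this)
  obtain ⟨G, hG, hGg⟩ := removable g U hU (by
    intro z hzU
    by_cases hz0 : h z = 0
    · have hzS : z ∈ S := (hS z).2 ⟨hz0, hzU.resolve_left (by simpa using hz0)⟩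
      have hu : Differentiable ℂ (dslope h z) := differentiableOn_univ.1
        ((differentiableOn_dslope univ_mem).2 hdiff.differentiableOn)
      have huz : dslope h z z = h' z := by rw [dslope_same, (hh z).deriv]
      have hui : AnalyticAt ℂ (fun w => (dslope h z w)⁻¹) z :=
        (hu.analyticAt z).fun_inv (by rw [huz]; exact hd z)
      obtain ⟨p, hp⟩ := hui
      refine ⟨fun w => dslope (fun w => (dslope h z w)⁻¹) z w
        - ∑ t ∈ S.erase z, (h' t)⁻¹ * (w - t)⁻¹, ?_, ?_⟩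
      · refine hp.has_fpower_series_dslope_fslope.analyticAt.fun_sub
          (Finset.analyticAt_fun_sum _ fun t ht => ?_)
        exact analyticAt_const.fun_mul ((analyticAt_id.fun_sub analyticAt_const).fun_inv
          (sub_ne_zero.2 (Finset.ne_of_mem_erase ht).symm))
      · filter_upwards [self_mem_nhdsWithin] with w hw
        have hw' : w ≠ z := hw
        simp only [g]
        rw [← Finset.add_sum_erase S _ hzS, dslope_of_ne _ hw', slope_def_field, huz,
          dslope_of_ne _ hw', slope_def_field, hz0, sub_zero]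
        have := sub_ne_zero.2 hw'
        by_cases hw0 : h w = 0
        · simp only [hw0, inv_zero, zero_div]
          ring
        · field_simp
          ring
    · exact ⟨g, hga z hz0, EventuallyEq.rfl⟩)
  have hC := two_pi_I_inv_smul_circleIntegral_sub_sq_inv_smul_of_differentiable hU hsub hG hz
  have hder : deriv G z0 = -(h' z0 / h z0 ^ 2) + ∑ t ∈ S, (h' t)⁻¹ / (z0 - t) ^ 2 := by
    have e : G =ᶠ[𝓝 z0] g := by
      filter_upwards [(isOpen_ne_fun hdiff.continuous continuous_const).mem_nhds h0] with w hw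
      exact hGg w (Or.inl hw) (hga w hw).continuousAt
    rw [e.deriv_eq]
    have d1 := (hh z0).fun_inv h0
    have d2 : HasDerivAt (fun z => ∑ t ∈ S, (h' t)⁻¹ * (z - t)⁻¹)
        (∑ t ∈ S, (h' t)⁻¹ * (-1 / (z0 - t) ^ 2)) z0 := by
      refine HasDerivAt.fun_sum fun t ht => ?_
      have : z0 - t ≠ 0 := by
        intro e
        rw [sub_eq_zero] at e
        exact h0 (e ▸ ((hS t).1 ht).1)
      exact (((hasDerivAt_id z0).sub_const t).fun_inv this).const_mul _
    rw [(d1.fun_sub d2).deriv, sub_eq_add_neg, ← Finset.sum_neg_distrib]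
    congr 1
    · ring
    · exact Finset.sum_congr rfl fun t _ => by ring
  rw [← hder, ← hC, smul_eq_mul]
  congr 1
  have hs0 : ∀ w ∈ ball (0 : ℂ) ρ, ∀ z ∈ sphere (0 : ℂ) ρ, z - w ≠ 0 := by
    intro w hw z hz h
    rw [sub_eq_zero] at h
    rw [h] at hz
    exact (ne_of_lt (mem_ball.1 hw)) (mem_sphere.1 hz)
  have c0 : ContinuousOn (fun z : ℂ => ((z - z0) ^ 2)⁻¹) (sphere 0 ρ) :=
    ((continuousOn_id.sub continuousOn_const).pow 2).inv₀ fun z hz' => pow_ne_zero 2 (hs0 z0 hz z hz')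
  have i2 : ∀ t ∈ S, CircleIntegrable
      (fun z => (h' t)⁻¹ * (((z - z0) ^ 2)⁻¹ * (z - t)⁻¹)) 0 ρ := fun t ht =>
    ContinuousOn.circleIntegrable hρ.le (continuousOn_const.mul (c0.mul
      ((continuousOn_id.sub continuousOn_const).inv₀ (hs0 t ((hS t).1 ht).2))))
  symm
  rw [circleIntegral.integral_congr hρ.le (g := fun z => ((z - z0) ^ 2)⁻¹ * (h z)⁻¹ -
    ∑ t ∈ S, (h' t)⁻¹ * (((z - z0) ^ 2)⁻¹ * (z - t)⁻¹))]
  · rw [circleIntegral.integral_sub, circleIntegral.integral_fun_sum i2, Finset.sum_eq_zero,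
      sub_zero]
    · intro t ht
      rw [circleIntegral.integral_const_mul, circ_zero ρ z0 t hz ((hS t).1 ht).2, mul_zero]
      intro e
      exact h0 (e ▸ ((hS t).1 ht).1)
    · exact ContinuousOn.circleIntegrable hρ.le (c0.mul (hdiff.continuous.continuousOn.inv₀ hs))
    · apply ContinuousOn.circleIntegrable hρ.le
      exact continuousOn_finsetSum _ fun t ht => continuousOn_const.mul (c0.mul
        ((continuousOn_id.sub continuousOn_const).inv₀ (hs0 t ((hS t).1 ht).2)))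
  · intro z hz'
    simp only [smul_eq_mul]
    rw [hGg z (Or.inl (hs z hz')) (hga z (hs z hz')).continuousAt]
    simp only [g, mul_sub, Finset.mul_sum]
    congr 1
    exact Finset.sum_congr rfl fun t _ => by ring

theorem fin_zeros (h h' : ℂ → ℂ) (hh : ∀ z, HasDerivAt h (h' z) z) (hd : ∀ z, h' z ≠ 0)
    (K : Set ℂ) (hK : IsCompact K) : {t | h t = 0 ∧ t ∈ K}.Finite := by
  have hdiff : Differentiable ℂ h := fun z => (hh z).differentiableAt
  have han : AnalyticOnNhd ℂ h K := fun z _ => hdiff.analyticAt z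
  refine ((MeromorphicOn.divisor h K).finiteSupport hK).subset fun t ht => ?_
  rw [Function.mem_support, MeromorphicOn.AnalyticOnNhd.divisor_apply han ht.2,
    (hdiff.analyticAt t).analyticOrderAt_eq_one_of_zero_deriv_ne_zero ht.1
      (by rw [(hh t).deriv]; exact hd t)]
  exact one_ne_zero

theorem identity (h h' : ℂ → ℂ) (hh : ∀ z, HasDerivAt h (h' z) z) (hd : ∀ z, h' z ≠ 0)
    (hsum : Summable (fun t : {t : ℂ // h t = 0} => ‖(h' t.1)⁻¹‖ / ‖t.1‖ ^ 2))
    (hs : ∀ j : ℕ, ∀ z ∈ sphere (0 : ℂ) (2 ^ j), h z ≠ 0)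
    (hlim : Tendsto (fun j : ℕ => (1 / 2 : ℝ) ^ j *
      ∫ θ in (0 : ℝ)..2 * Real.pi, ‖h (circleMap 0 (2 ^ j) θ)‖⁻¹) atTop (𝓝 0))
    (z0 : ℂ) (h0 : h z0 ≠ 0) :
    HasSum (fun t : {t : ℂ // h t = 0} => (h' t.1)⁻¹ / (z0 - t.1) ^ 2) (h' z0 / h z0 ^ 2) := by
  classical
  have hdiff : Differentiable ℂ h := fun z => (hh z).differentiableAt
  have hfin : ∀ R : ℝ, {t : {t : ℂ // h t = 0} | t.1 ∈ ball (0 : ℂ) R}.Finite := by
    intro R
    refine Finite.of_finite_image (f := Subtype.val) ?_ Subtype.val_injective.injOn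
    refine (fin_zeros h h' hh hd _ (isCompact_closedBall 0 R)).subset ?_
    rintro _ ⟨t, ht, rfl⟩
    exact ⟨t.2, ball_subset_closedBall ht⟩
  have hsm : Summable (fun t : {t : ℂ // h t = 0} => (h' t.1)⁻¹ / (z0 - t.1) ^ 2) := by
    refine Summable.of_norm_bounded_eventually (hsum.mul_left 4) ?_
    refine (hfin (2 * ‖z0‖ + 1)).subset fun t ht => ?_
    by_contra hc
    apply ht
    simp only [mem_ofPred_eq, mem_ball_zero_iff, not_lt] at hc
    have h1 : ‖t.1‖ ≤ ‖z0‖ + ‖z0 - t.1‖ := by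
      have := norm_sub_le z0 (z0 - t.1)
      simpa using this
    have h2 := norm_nonneg z0
    show ‖(h' t.1)⁻¹ / (z0 - t.1) ^ 2‖ ≤ 4 * (‖(h' t.1)⁻¹‖ / ‖t.1‖ ^ 2)
    rw [norm_div, norm_pow, ← mul_div_assoc, div_le_div_iff₀ (pow_pos (by linarith) 2)
      (pow_pos (by linarith) 2)]
    have h3 : ‖t.1‖ ^ 2 ≤ (2 * ‖z0 - t.1‖) ^ 2 := pow_le_pow_left₀ (norm_nonneg _) (by linarith) 2
    have := mul_le_mul_of_nonneg_left h3 (norm_nonneg (h' t.1)⁻¹)
    linarith
  let S : ℕ → Finset {t : ℂ // h t = 0} := fun j => (hfin (2 ^ j)).toFinset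
  have h2t : Tendsto (fun j : ℕ => (2 : ℝ) ^ j) atTop atTop :=
    tendsto_pow_atTop_atTop_of_one_lt one_lt_two
  have hSt : Tendsto S atTop atTop := by
    apply tendsto_atTop_finset_of_monotone
    · intro i j hij t ht
      simp only [S, Finite.mem_toFinset, mem_ofPred_eq] at ht ⊢
      exact ball_subset_ball (pow_le_pow_right₀ one_le_two hij) ht
    · intro t
      obtain ⟨j, hj⟩ := (h2t.eventually_gt_atTop ‖t.1‖).exists
      exact ⟨j, by simpa [S] using hj⟩
  have l1 := hsm.hasSum.comp hSt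
  have l2 : Tendsto (fun j => ∑ t ∈ S j, (h' t.1)⁻¹ / (z0 - t.1) ^ 2) atTop
      (𝓝 (h' z0 / h z0 ^ 2)) := by
    rw [tendsto_iff_norm_sub_tendsto_zero]
    have l3 := hlim.const_mul 4
    rw [mul_zero] at l3
    refine squeeze_zero' (Eventually.of_forall fun j => norm_nonneg _) ?_ l3
    filter_upwards [h2t.eventually_gt_atTop (2 * ‖z0‖)] with j hj
    have hn := norm_nonneg z0
    have hρ : (0 : ℝ) < 2 ^ j := by positivity
    have hr := residue h h' hh hd (2 ^ j) (hs j) z0 (by rw [mem_ball_zero_iff]; linarith) h0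
      ((S j).map (Function.Embedding.subtype _)) (by
        intro t
        simp only [Finset.mem_map, Function.Embedding.coe_subtype, S, Finite.mem_toFinset,
          mem_ofPred_eq]
        constructor
        · rintro ⟨s, hs', rfl⟩
          exact ⟨s.2, hs'⟩
        · rintro ⟨a, b⟩
          exact ⟨⟨t, a⟩, b, rfl⟩)
    rw [Finset.sum_map] at hr
    simp only [Function.Embedding.coe_subtype] at hr
    rw [sub_eq_neg_add, ← hr, norm_mul]
    have hpi := Real.pi_gt_three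
    have n1 : ‖(2 * Real.pi * I : ℂ)⁻¹‖ ≤ 1 := by
      rw [norm_inv]
      apply inv_le_one_of_one_le₀
      simp only [Complex.norm_mul, Complex.norm_ofNat, norm_real, Real.norm_eq_abs, norm_I,
        mul_one, abs_of_pos Real.pi_pos]
      linarith
    refine (mul_le_of_le_one_left (norm_nonneg _) n1).trans ?_
    rw [← mul_assoc, ← intervalIntegral.integral_const_mul, circleIntegral]
    have hc : Continuous fun θ : ℝ => ‖h (circleMap 0 (2 ^ j) θ)‖⁻¹ := by
      refine Continuous.inv₀ (by have := hdiff.continuous; fun_prop) fun θ => ?_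
      exact norm_ne_zero_iff.2 (hs j _ (circleMap_mem_sphere _ hρ.le θ))
    refine intervalIntegral.norm_integral_le_of_norm_le (by positivity)
      (Eventually.of_forall fun θ _ => ?_) ((hc.intervalIntegrable _ _).const_mul _)
    rw [deriv_circleMap, norm_smul, norm_mul, norm_mul, norm_inv, norm_inv, norm_pow, norm_I,
      mul_one, norm_circleMap_zero, abs_of_pos hρ, ← mul_assoc]
    refine mul_le_mul_of_nonneg_right ?_ (by positivity)
    have n2 : (2 : ℝ) ^ j ≤ ‖circleMap 0 (2 ^ j) θ - z0‖ + ‖z0‖ := by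
      have := norm_add_le (circleMap 0 (2 ^ j) θ - z0) z0
      rwa [sub_add_cancel, norm_circleMap_zero, abs_of_pos hρ] at this
    have n3 : ((2 : ℝ) ^ j) ^ 2 ≤ (2 * ‖circleMap 0 (2 ^ j) θ - z0‖) ^ 2 :=
      pow_le_pow_left₀ hρ.le (by linarith) 2
    rw [one_div, inv_pow, ← div_eq_mul_inv, ← div_eq_mul_inv,
      div_le_div_iff₀ (pow_pos (by linarith) 2) hρ]
    nlinarith
  rw [← tendsto_nhds_unique l1 l2]
  exact hsm.hasSum

end Pool.Agent.H.MP_c3b115_an
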