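import Pool.Agent.H.MP_c3b115_an.B
import Pool.Agent.H.MP_c3b115_an.C
import Pool.Agent.H.MP_c3b115_an.D

set_option autoImplicit false
open Complex Filter Topology Set Metric

namespace Pool.Agent.H.MP_c3b115_an

variable {E : ℂ → ℂ} {m : ℝ} {b : ℂ}

theorem Good.arc (G : Good E m) (hb : 2 * m + 2 ≤ b.re) {r θ : ℝ} (hr : 5 ≤ r)
    (h1 : 3 / r ≤ θ) (h2 : θ ≤ 4 / r) :
    Real.exp (r - 2) / 2 ≤ Real.posLog ‖(E (circleMap 0 r θ) - b) ^ 2 *
      (cexp (cexp (circleMap 0 r θ)))⁻¹‖ := by
  set z := circleMap 0 r θ with hz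
  have hr0 : 0 < r := by linarith
  have hre : z.re = r * Real.cos θ := by simp [hz, circleMap]
  have him : z.im = r * Real.sin θ := by simp [hz, circleMap]
  rw [div_le_iff₀ hr0] at h1
  rw [le_div_iff₀ hr0] at h2
  have hθ : 0 < θ := by
    by_contra hc
    push Not at hc
    nlinarith
  have hθ1 : θ ≤ 4 / 5 := by nlinarith
  have hx : r - 2 ≤ z.re := by
    rw [hre]
    have := mul_le_mul_of_nonneg_left (Real.one_sub_sq_div_two_le_cos (x := θ)) hr0.le
    nlinarith
  have hy1 : z.im ≤ 4 := by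
    rw [him]
    have := mul_le_mul_of_nonneg_left (Real.sin_le hθ.le) hr0.le
    nlinarith
  have hy2 : 5 / 2 ≤ z.im := by
    rw [him]
    have := mul_le_mul_of_nonneg_left (Real.sin_gt_sub_cube hθ).le hr0.le
    have h3 : θ ^ 2 ≤ 16 / 25 := by nlinarith
    have h4 : θ * r * θ ^ 2 ≤ θ * r * (16 / 25) := mul_le_mul_of_nonneg_left h3 (by positivity)
    nlinarith
  have hcos : Real.cos z.im ≤ -(1 / 2) := by
    have h3 := Real.one_sub_sq_div_two_le_cos (x := z.im - Real.pi)
    rw [Real.cos_sub_pi] at h3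
    have := Real.pi_gt_three
    have := Real.pi_lt_d2
    nlinarith
  have hbig := G.big hb (z := z) (by linarith) (by linarith)
  refine le_trans ?_ (le_max_right _ _)
  have hN : 0 < ‖cexp (cexp z)‖ := norm_pos_iff.2 (Complex.exp_ne_zero _)
  rw [norm_mul, norm_inv, norm_pow, Real.log_mul (by positivity) (by positivity), Real.log_inv,
    norm_ee', Real.log_exp]
  have h5 : 0 ≤ Real.log (‖E z - b‖ ^ 2) := Real.log_nonneg (one_le_pow₀ hbig)
  have h6 := Real.exp_le_exp.2 hx
  have h7 := Real.exp_pos z.re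
  nlinarith

theorem Good.prox (G : Good E m) (hb : 2 * m + 2 ≤ b.re) {r : ℝ} (hr : 5 ≤ r) :
    Real.exp (r - 2) / (16 * r) ≤ ValueDistribution.characteristic
      (fun z => (E z - b) ^ 2 * (cexp (cexp z))⁻¹) ⊤ r := by
  have hr0 : 0 < r := by linarith
  have hpi := Real.pi_gt_three
  have hpi' := Real.pi_le_four
  refine le_trans ?_ (le_add_of_nonneg_right (ValueDistribution.logCounting_nonneg (by linarith)))
  rw [ValueDistribution.proximity_top, Real.circleAverage_def]
  have hc : Continuous fun θ : ℝ => Real.posLog ‖(E (circleMap 0 r θ) - b) ^ 2 *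
      (cexp (cexp (circleMap 0 r θ)))⁻¹‖ := by
    have := G.diff.continuous
    refine Real.continuous_posLog.comp (Continuous.norm (Continuous.mul (by fun_prop) ?_))
    exact Continuous.inv₀ (by fun_prop) fun θ => Complex.exp_ne_zero _
  have h34 : 3 / r ≤ 4 / r := by gcongr; norm_num
  have h1 := intervalIntegral.integral_mono_interval (μ := MeasureTheory.volume)
    (show 0 ≤ 3 / r by positivity) h34
    (show 4 / r ≤ 2 * Real.pi by rw [div_le_iff₀ hr0]; nlinarith)
    (Eventually.of_forall fun θ => Real.posLog_nonneg) (hc.intervalIntegrable _ _)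
  have h2 := intervalIntegral.integral_mono_on (μ := MeasureTheory.volume) h34
    (intervalIntegrable_const (c := Real.exp (r - 2) / 2)) (hc.intervalIntegrable _ _)
    (fun θ hθ => G.arc hb hr hθ.1 hθ.2)
  rw [intervalIntegral.integral_const, smul_eq_mul] at h2
  rw [smul_eq_mul, le_inv_mul_iff₀ (by positivity)]
  refine le_trans ?_ (h2.trans h1)
  have e : (4 / r - 3 / r) * (Real.exp (r - 2) / 2) = 8 * (Real.exp (r - 2) / (16 * r)) := by
    field_simp
    ring
  rw [e]
  exact mul_le_mul_of_nonneg_right (by linarith) (by positivity)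

theorem Good.growth (G : Good E m) (hb : 2 * m + 2 ≤ b.re) (ρ R : ℝ) : ∃ r > R, r ≠ 0 ∧
    r ^ ρ < ValueDistribution.characteristic (fun z => cexp (cexp z) / (E z - b) ^ 2) ⊤ r := by
  set F : ℂ → ℂ := fun z => (E z - b) ^ 2 * (cexp (cexp z))⁻¹ with hF
  have hFd : Differentiable ℂ F := by
    have := G.diff
    exact Differentiable.mul (by fun_prop)
      (Differentiable.inv (by fun_prop) fun z => Complex.exp_ne_zero _)
  have hFm : Meromorphic F := fun z => (hFd.analyticAt z).meromorphicAt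
  have e : (fun z => cexp (cexp z) / (E z - b) ^ 2) = F⁻¹ := by
    ext z
    simp only [hF, Pi.inv_apply, mul_inv, inv_inv]
    ring
  rw [e]
  set K := max |Real.log ‖F 0‖| |Real.log ‖meromorphicTrailingCoeffAt F 0‖| with hK
  have hK0 : 0 ≤ K := le_max_of_le_left (abs_nonneg _)
  have h1 := (tendsto_exp_div_rpow_atTop (max ρ 0 + 1)).eventually_gt_atTop
    (16 * Real.exp 2 * (1 + K))
  obtain ⟨r, hr1, hr2, hr3⟩ := (h1.and ((eventually_gt_atTop R).and (eventually_ge_atTop 5))).exists
  have hr0 : 0 < r := by linarith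
  refine ⟨r, hr2, hr0.ne', ?_⟩
  have h2 := G.prox hb hr3
  have h3 := ValueDistribution.characteristic_sub_characteristic_inv_le (R := r) hFm
  have h4 := (abs_le.1 h3).2
  rw [Real.rpow_add hr0, Real.rpow_one, lt_div_iff₀ (by positivity)] at hr1
  have h5 : 1 ≤ r ^ max ρ 0 := Real.one_le_rpow (by linarith) (le_max_right _ _)
  have h6 : r ^ ρ ≤ r ^ max ρ 0 :=
    Real.rpow_le_rpow_of_exponent_le (by linarith) (le_max_left _ _)
  have h7 : (1 + K) * r ^ max ρ 0 < Real.exp (r - 2) / (16 * r) := by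
    rw [lt_div_iff₀ (by positivity), Real.exp_sub, lt_div_iff₀ (Real.exp_pos 2)]
    linarith
  have h8 := mul_le_mul_of_nonneg_left h5 hK0
  linarith

theorem main : ∃ (c t : ℕ → ℂ), Function.Injective t ∧ (∀ n, t n ≠ 0) ∧
    Tendsto t atTop (cocompact ℂ) ∧ Summable (fun n => ‖c n‖ / ‖t n‖ ^ 2) ∧
      (∀ ρ : ℝ, ∀ R : ℝ, ∃ r > R,
        r ^ ρ < ValueDistribution.characteristic
          (fun z : ℂ => ∑' n, c n / (z - t n) ^ 2) ⊤ r) ∧
      {z : ℂ | 0 < meromorphicOrderAt (fun w : ℂ => ∑' n, c n / (w - t n) ^ 2) z} = ∅ := by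
  obtain ⟨E, m, G⟩ := exists_good
  obtain ⟨b, hb0, hsph, hlim⟩ := generic E G.diff ((2 * m + 3 : ℝ) : ℂ)
  rw [mem_ball, dist_eq_norm] at hb0
  have hb : 2 * m + 2 ≤ b.re := by
    have := Complex.abs_re_le_norm (b - ((2 * m + 3 : ℝ) : ℂ))
    rw [sub_re, ofReal_re] at this
    linarith [(abs_le.1 (this.trans hb0.le)).1]
  have hb' : |b.im| ≤ 1 := by
    have := Complex.abs_im_le_norm (b - ((2 * m + 3 : ℝ) : ℂ))
    rw [sub_im, ofReal_im, sub_zero] at this
    linarith
  let h : ℂ → ℂ := fun z => E z - b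
  have hh : ∀ z, HasDerivAt h (cexp (cexp z)) z := fun z => (G.hE z).sub_const b
  have hd : ∀ z, cexp (cexp z) ≠ 0 := fun z => Complex.exp_ne_zero _
  have hsum : Summable (fun t : {t : ℂ // h t = 0} => ‖(cexp (cexp t.1))⁻¹‖ / ‖t.1‖ ^ 2) :=
    (G.summable hb hb').comp_injective
      (i := fun t : {t : ℂ // h t = 0} => (⟨t.1, sub_eq_zero.1 t.2⟩ : {t : ℂ // E t = b}))
      fun s t hst => Subtype.ext (congrArg Subtype.val hst :)
  have hid := identity h _ hh hd hsum (fun j z hz => sub_ne_zero.2 (hsph j z hz)) hlim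
  have hpos : ∀ t : {t : ℂ // h t = 0}, 0 < t.1.re := fun t => G.zero_pos hb (sub_eq_zero.1 t.2)
  have : Countable {t : ℂ // h t = 0} := by
    have h1 := hsum.countable_support
    rw [show Function.support _ = univ from eq_univ_of_forall fun t => ?_] at h1
    · exact countable_univ_iff.1 h1
    · refine div_ne_zero (norm_ne_zero_iff.2 (inv_ne_zero (hd _))) (pow_ne_zero 2 ?_)
      refine norm_ne_zero_iff.2 fun h0 => ?_
      have := hpos t
      rw [h0] at this
      simp at this
  obtain ⟨e⟩ : Nonempty (ℕ ≃ ({t : ℂ // h t = 0} ⊕ ℕ)) := nonempty_equiv_of_countable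
  let T : {t : ℂ // h t = 0} ⊕ ℕ → ℂ := Sum.elim (fun t => t.1) fun n => -((n : ℂ) + 1)
  let C : {t : ℂ // h t = 0} ⊕ ℕ → ℂ := Sum.elim (fun t => (cexp (cexp t.1))⁻¹) fun _ => 0
  have hrange : ∀ x ∉ range (Sum.inl : {t : ℂ // h t = 0} → {t : ℂ // h t = 0} ⊕ ℕ), C x = 0 := by
    rintro (t | n) hx
    · exact (hx ⟨t, rfl⟩).elim
    · rfl
  have hval : ∀ z, h z ≠ 0 → ∑' n, C (e n) / (z - T (e n)) ^ 2 = cexp (cexp z) / (E z - b) ^ 2 := by
    intro z hz
    rw [e.tsum_eq (fun x => C x / (z - T x) ^ 2)]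
    apply HasSum.tsum_eq
    rw [← Sum.inl_injective.hasSum_iff (fun x hx => by rw [hrange x hx, zero_div])]
    exact hid z hz
  have h00 : h 0 ≠ 0 := fun h0 => by simpa using hpos ⟨0, h0⟩
  have hcod : (fun z : ℂ => ∑' n, C (e n) / (z - T (e n)) ^ 2) =ᶠ[codiscrete ℂ]
      fun z => cexp (cexp z) / (E z - b) ^ 2 := by
    have han : AnalyticOnNhd ℂ h univ := fun z _ => (G.diff.sub_const b).analyticAt z
    filter_upwards [han.preimage_zero_mem_codiscrete h00] with z hz
    exact hval z hz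
  have hneg : ∀ n : ℕ, (-((n : ℂ) + 1)).re < 0 := fun n => by
    simp only [neg_re, add_re, natCast_re, one_re]
    have : (0 : ℝ) ≤ n := n.cast_nonneg
    linarith
  refine ⟨fun n => C (e n), fun n => T (e n), ?_, ?_, ?_, ?_, ?_, ?_⟩
  · refine Function.Injective.comp (g := T) ?_ e.injective
    rintro (s | k) (t | n) hst
    · exact congrArg _ (Subtype.ext hst)
    · have h1 := hpos s
      have h2 := hneg n
      rw [show s.1 = -((n : ℂ) + 1) from hst] at h1
      linarith
    · have h1 := hpos t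
      have h2 := hneg k
      rw [← show -((k : ℂ) + 1) = t.1 from hst] at h1
      linarith
    · have h1 : -((k : ℂ) + 1) = -((n : ℂ) + 1) := hst
      simpa using h1
  · intro n
    show T (e n) ≠ 0
    rcases e n with t | k
    · intro h0
      have h1 := hpos t
      rw [show t.1 = 0 from h0] at h1
      simp at h1
    · intro h0
      have h1 := hneg k
      rw [show -((k : ℂ) + 1) = 0 from h0] at h1
      simp at h1
  · rw [← Nat.cofinite_eq_atTop]
    refine Tendsto.comp (g := T) ?_ e.injective.tendsto_cofinite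
    rw [tendsto_cofinite_cocompact_iff]
    intro K hK
    obtain ⟨R, hR⟩ := hK.isBounded.exists_norm_le
    have f1 : {t : {t : ℂ // h t = 0} | t.1 ∈ K}.Finite := by
      refine Finite.of_finite_image (f := Subtype.val) ?_ Subtype.val_injective.injOn
      refine (fin_zeros h _ hh hd _ hK).subset ?_
      rintro _ ⟨t, ht, rfl⟩
      exact ⟨t.2, ht⟩
    refine ((f1.image Sum.inl).union ((finite_le_nat ⌈R⌉₊).image Sum.inr)).subset ?_
    rintro (t | n) hx
    · exact Or.inl ⟨t, hx, rfl⟩
    · refine Or.inr ⟨n, ?_, rfl⟩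
      have h1 := hR _ hx
      have h2 := Complex.abs_re_le_norm (-((n : ℂ) + 1))
      simp only [neg_re, add_re, natCast_re, one_re, abs_neg] at h2
      have h3 := (le_abs_self _).trans (h2.trans h1)
      have h4 := Nat.le_ceil R
      have : (n : ℝ) ≤ ⌈R⌉₊ := by linarith
      exact_mod_cast this
  · refine (e.summable_iff (f := fun x => ‖C x‖ / ‖T x‖ ^ 2)).2 ?_
    rw [← Sum.inl_injective.summable_iff (fun x hx => by rw [hrange x hx, norm_zero, zero_div])]
    exact hsum
  · intro ρ R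
    obtain ⟨r, hr, hr0, hlt⟩ := G.growth hb ρ R
    exact ⟨r, hr, by rw [ValueDistribution.characteristic_congr_codiscrete hcod hr0]; exact hlt⟩
  · refine eq_empty_of_forall_notMem fun z hz => ?_
    have h1 := tendsto_zero_of_meromorphicOrderAt_pos hz
    have hFc : Continuous fun z => (E z - b) ^ 2 * (cexp (cexp z))⁻¹ := by
      have := G.diff.continuous
      exact Continuous.mul (by fun_prop) (Continuous.inv₀ (by fun_prop) hd)
    have h2 := h1.mul (hFc.continuousAt.tendsto.mono_left (nhdsWithin_le_nhds (s := {z}ᶜ) (a := z)))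
    rw [zero_mul] at h2
    have han : AnalyticOnNhd ℂ h univ := fun z _ => (G.diff.sub_const b).analyticAt z
    have h3 : ∀ᶠ w in 𝓝[≠] z, h w ≠ 0 := by
      have := mem_codiscrete.1 (han.preimage_zero_mem_codiscrete h00) z
      rw [disjoint_principal_right, compl_compl] at this
      exact this
    have h4 : Tendsto (fun _ : ℂ => (1 : ℂ)) (𝓝[≠] z) (𝓝 0) := by
      refine h2.congr' ?_
      filter_upwards [h3] with w hw
      rw [hval w hw]
      have := hd w
      have : E w - b ≠ 0 := hw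
      field_simp
    exact one_ne_zero (tendsto_nhds_unique tendsto_const_nhds h4)

end Pool.Agent.H.MP_c3b115_an
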